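import Pool.Agent.Q280.CD.Bas

set_option autoImplicit false

/-! The mean square of the product on the critical line. -/

namespace Pool.Agent.Q280.CD

open MeasureTheory Filter Pool.Agent.Q276.CD

lemma norm_sq_sub_le (a b : ℂ) : ‖a - b‖ ^ 2 ≤ 2 * ‖a‖ ^ 2 + 2 * ‖b‖ ^ 2 := by
  have h1 : ‖a - b‖ ^ 2 ≤ (‖a‖ + ‖b‖) ^ 2 :=
    pow_le_pow_left₀ (norm_nonneg _) (norm_sub_le a b) 2
  nlinarith [sq_nonneg (‖a‖ - ‖b‖)]

lemma norm_sq_add_le (a b : ℂ) : ‖a + b‖ ^ 2 ≤ 2 * ‖a‖ ^ 2 + 2 * ‖b‖ ^ 2 := by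
  have h1 : ‖a + b‖ ^ 2 ≤ (‖a‖ + ‖b‖) ^ 2 :=
    pow_le_pow_left₀ (norm_nonneg _) (norm_add_le a b) 2
  nlinarith [sq_nonneg (‖a‖ - ‖b‖)]

lemma cont_FF (k T : ℝ) : Continuous (FF k T) := by
  unfold FF ZZ AA MM
  exact ((cont_Dp _ _).mul (cont_Dr _ _)).mul (cont_Dr _ _)

theorem ff_int (h5 : P_M5) (hz : P_ZN) : ∃ C : ℝ, 1 ≤ C ∧ ∀ᶠ T : ℝ in atTop, ∀ k : ℝ, 0 ≤ k → k ≤ 1 →
    (∫ t in (T / 4)..(8 * T), ‖FF k T (cl t)‖ ^ 2) + 20 * T ^ ((1:ℝ) / 2) ≤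
      T * V T ^ C * Real.exp (k ^ 2 * V T) := by
  obtain ⟨C5, hC5, h5⟩ := h5
  obtain ⟨Cz, hCz, hz⟩ := hz
  refine ⟨C5 + 1, by linarith, ?_⟩
  filter_upwards [h5, eventually_ge_atTop 4, tendsto_V.eventually_ge_atTop 4,
    ev_pow (1/5) 1 (16 * Cz ^ 2) (by norm_num), ev_pow (1/2) 1 20 (by norm_num)]
    with T h5 hT hV hp1 hp2 k hk0 hk1
  have hT0 : 0 < T := by linarith
  have hV0 : 0 < V T := by linarith
  have hle : T / 4 ≤ 8 * T := by linarith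
  have h5' := h5 k hk0 hk1
  have habs : |k| ≤ 1 := by rw [abs_of_nonneg hk0]; exact hk1
  rw [Real.rpow_one] at hp1 hp2
  have key : ∀ t ∈ Set.Icc (T / 4) (8 * T), ‖FF k T (cl t)‖ ^ 2 ≤
      2 * (‖riemannZeta (cl t)‖ ^ 2 * ‖AA k T (cl t) * MM T (cl t)‖ ^ 2) +
        2 * Cz ^ 2 * T ^ (-(4:ℝ) / 5) := by
    intro t ht
    have e1 : FF k T (cl t) = (riemannZeta (cl t) - (riemannZeta (cl t) - ZZ T (cl t))) *
        (AA k T (cl t) * MM T (cl t)) := by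
      unfold FF; ring
    have h1 := hz T hT t ht
    have h2 := norm_sq_sub_le (riemannZeta (cl t)) (riemannZeta (cl t) - ZZ T (cl t))
    have h3 : ‖riemannZeta (cl t) - ZZ T (cl t)‖ ^ 2 ≤ Cz ^ 2 * T ^ (-(1:ℝ)) := by
      have h4 := pow_le_pow_left₀ (norm_nonneg _) h1 2
      rw [mul_pow, ← Real.rpow_natCast (T ^ (-(1:ℝ) / 2)) 2, ← Real.rpow_mul hT0.le] at h4
      norm_num at h4 ⊢
      exact h4
    have h6 : ‖AA k T (cl t) * MM T (cl t)‖ ^ 2 ≤ T ^ ((1:ℝ) / 5) := by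
      have h4 := pow_le_pow_left₀ (norm_nonneg _) (norm_AM_le habs hT0.le t) 2
      rw [← Real.rpow_natCast (T ^ ((1:ℝ) / 10)) 2, ← Real.rpow_mul hT0.le] at h4
      norm_num at h4 ⊢
      exact h4
    rw [e1, norm_mul, mul_pow]
    have h7 : 0 ≤ ‖AA k T (cl t) * MM T (cl t)‖ ^ 2 := sq_nonneg _
    calc ‖riemannZeta (cl t) - (riemannZeta (cl t) - ZZ T (cl t))‖ ^ 2 *
          ‖AA k T (cl t) * MM T (cl t)‖ ^ 2
        ≤ (2 * ‖riemannZeta (cl t)‖ ^ 2 + 2 * ‖riemannZeta (cl t) - ZZ T (cl t)‖ ^ 2) *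
          ‖AA k T (cl t) * MM T (cl t)‖ ^ 2 := mul_le_mul_of_nonneg_right h2 h7
      _ = 2 * (‖riemannZeta (cl t)‖ ^ 2 * ‖AA k T (cl t) * MM T (cl t)‖ ^ 2) +
          2 * (‖riemannZeta (cl t) - ZZ T (cl t)‖ ^ 2 * ‖AA k T (cl t) * MM T (cl t)‖ ^ 2) := by ring
      _ ≤ 2 * (‖riemannZeta (cl t)‖ ^ 2 * ‖AA k T (cl t) * MM T (cl t)‖ ^ 2) +
          2 * ((Cz ^ 2 * T ^ (-(1:ℝ))) * T ^ ((1:ℝ) / 5)) := by
          gcongr
      _ = _ := by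
          rw [mul_assoc (Cz ^ 2), ← Real.rpow_add hT0]
          norm_num
          ring
  have hc1 : Continuous fun t : ℝ => ‖FF k T (cl t)‖ ^ 2 :=
    (((cont_FF k T).comp cont_cl).norm).pow 2
  have hc2 : Continuous fun t : ℝ => ‖riemannZeta (cl t)‖ ^ 2 * ‖AA k T (cl t) * MM T (cl t)‖ ^ 2 :=
    (cont_zeta.norm.pow 2).mul
      ((((cont_Dr _ _).comp cont_cl).mul ((cont_Dr _ _).comp cont_cl)).norm.pow 2)
  have hc3 : Continuous fun t : ℝ =>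
      2 * (‖riemannZeta (cl t)‖ ^ 2 * ‖AA k T (cl t) * MM T (cl t)‖ ^ 2) := continuous_const.mul hc2
  have h8 : ∫ t in (T / 4)..(8 * T), ‖FF k T (cl t)‖ ^ 2 ≤ ∫ t in (T / 4)..(8 * T),
      (2 * (‖riemannZeta (cl t)‖ ^ 2 * ‖AA k T (cl t) * MM T (cl t)‖ ^ 2) +
        2 * Cz ^ 2 * T ^ (-(4:ℝ) / 5)) :=
    intervalIntegral.integral_mono_on hle (hc1.intervalIntegrable _ _)
      ((hc3.add continuous_const).intervalIntegrable _ _) key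
  rw [intervalIntegral.integral_add (hc3.intervalIntegrable _ _)
    (continuous_const.intervalIntegrable _ _), intervalIntegral.integral_const_mul,
    intervalIntegral.integral_const, smul_eq_mul] at h8
  have h9 : (8 * T - T / 4) * (2 * Cz ^ 2 * T ^ (-(4:ℝ) / 5)) ≤ 16 * Cz ^ 2 * T ^ ((1:ℝ) / 5) := by
    have e2 : T * T ^ (-(4:ℝ) / 5) = T ^ ((1:ℝ) / 5) := by
      nth_rewrite 1 [← Real.rpow_one T]
      rw [← Real.rpow_add hT0]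
      norm_num
    have e3 : 0 ≤ T ^ (-(4:ℝ) / 5) := Real.rpow_nonneg hT0.le _
    calc (8 * T - T / 4) * (2 * Cz ^ 2 * T ^ (-(4:ℝ) / 5))
        ≤ (8 * T) * (2 * Cz ^ 2 * T ^ (-(4:ℝ) / 5)) := by
          apply mul_le_mul_of_nonneg_right (by linarith); positivity
      _ = 16 * Cz ^ 2 * (T * T ^ (-(4:ℝ) / 5)) := by ring
      _ = _ := by rw [e2]
  have hE : 1 ≤ Real.exp (k ^ 2 * V T) := Real.one_le_exp (by positivity)
  have hVC : 1 ≤ V T ^ C5 := Real.one_le_rpow (by linarith) hC5.le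
  have h10 : T ≤ T * V T ^ C5 * Real.exp (k ^ 2 * V T) := by
    calc T = T * 1 * 1 := by ring
      _ ≤ _ := by gcongr
  rw [Real.rpow_add_one hV0.ne']
  have h11 : T * (V T ^ C5 * V T) * Real.exp (k ^ 2 * V T) =
      V T * (T * V T ^ C5 * Real.exp (k ^ 2 * V T)) := by ring
  rw [h11]
  have h12 : 0 ≤ T * V T ^ C5 * Real.exp (k ^ 2 * V T) := by positivity
  nlinarith [mul_le_mul_of_nonneg_right hV h12]

end Pool.Agent.Q280.CD
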