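import Pool.Agent.Q280.CD.Ff

set_option autoImplicit false

/-! Job M8: the product near the critical line. -/

namespace Pool.Agent.Q280.CD

open MeasureTheory Filter Pool.Agent.Q276.CD

lemma Dp_congr (a b : ℕ → ℂ) (Y : ℕ) (h : ∀ n, 1 ≤ n → a n = b n) : Dp a Y = Dp b Y := by
  funext s
  unfold Dp
  refine Finset.sum_congr rfl fun n hn => ?_
  rw [h n (Finset.mem_Icc.1 hn).1]

lemma NN_le {T : ℝ} (hT : 1 ≤ T) : (NN T : ℝ) ≤ 9 * T := by
  unfold NN
  have := Nat.ceil_lt_add_one (show 0 ≤ 8 * T by linarith)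
  linarith

lemma two_le_NN {T : ℝ} (hT : 1 ≤ T) : 2 ≤ NN T := by
  unfold NN
  have h : (2:ℝ) ≤ (⌈8 * T⌉₊ : ℝ) := le_trans (by linarith) (Nat.le_ceil (8 * T))
  exact_mod_cast h

lemma Y_le {T : ℝ} (hT : 1 ≤ T) (h9 : 9 * T ^ ((11:ℝ) / 10) ≤ T ^ (2:ℝ)) :
    ((NN T * (y2 T * y2 T) : ℕ) : ℝ) ≤ T ^ (2:ℝ) := by
  have hT0 : 0 < T := by linarith
  have h1 := y2_le hT0.le
  push_cast
  have h2 : (y2 T : ℝ) * (y2 T : ℝ) ≤ T ^ ((1:ℝ) / 10) := by
    refine (mul_le_mul h1 h1 (Nat.cast_nonneg _) (Real.rpow_nonneg hT0.le _)).trans ?_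
    rw [← Real.rpow_add hT0]
    norm_num
  have h3 : T * T ^ ((1:ℝ) / 10) = T ^ ((11:ℝ) / 10) := by
    nth_rewrite 1 [← Real.rpow_one T]
    rw [← Real.rpow_add hT0]
    norm_num
  calc (NN T : ℝ) * ((y2 T : ℝ) * (y2 T : ℝ)) ≤ (9 * T) * T ^ ((1:ℝ) / 10) :=
        mul_le_mul (NN_le hT) h2 (by positivity) (by positivity)
    _ = 9 * (T * T ^ ((1:ℝ) / 10)) := by ring
    _ ≤ _ := by rw [h3]; exact h9

lemma le_Y {T : ℝ} (hT : 1 ≤ T) : y2 T + 1 ≤ NN T * (y2 T * y2 T) := by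
  have h1 := one_le_y2 hT
  have h2 := two_le_NN hT
  nlinarith [Nat.mul_le_mul h2 (Nat.mul_le_mul h1 (le_refl (y2 T)))]

lemma ev_V_div (A : ℝ) : ∀ᶠ T : ℝ in atTop, A * V T ≤ Real.log T := by
  have h1 : ∀ᶠ x : ℝ in atTop, ‖Real.log x‖ ≤ (1 / (|A| + 1)) * ‖x‖ :=
    Real.isLittleO_log_id_atTop.bound (by positivity)
  filter_upwards [Real.tendsto_log_atTop.eventually h1,
    Real.tendsto_log_atTop.eventually_ge_atTop 1] with T h hL
  have hV : 0 ≤ V T := Real.log_nonneg hL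
  have h2 : V T ≤ (1 / (|A| + 1)) * Real.log T := by
    have := h
    rw [Real.norm_eq_abs, Real.norm_eq_abs, abs_of_nonneg (Real.log_nonneg hL),
      abs_of_nonneg (by linarith : (0:ℝ) ≤ Real.log T)] at this
    exact this
  calc A * V T ≤ (|A| + 1) * V T := by
        apply mul_le_mul_of_nonneg_right _ hV
        linarith [le_abs_self A]
    _ ≤ (|A| + 1) * ((1 / (|A| + 1)) * Real.log T) := by gcongr
    _ = Real.log T := by field_simp

theorem t_M8 (h5 : P_M5) (hz : P_ZN) (hsh : P_SH) (hfn : P_FN) : P_M8 := by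
  obtain ⟨C1, hC1, hff⟩ := ff_int h5 hz
  refine ⟨max 36 C1, by positivity, ?_⟩
  filter_upwards [hff, hfn, eventually_ge_atTop 4, tendsto_V.eventually_ge_atTop 1,
    ev_pow (11/10) 2 9 (by norm_num), ev_V_div 9] with T hff hfn hT hV h9 hVL
      k hk0 hk1 lam hlam1 hlamV z hz
  have hT0 : 0 < T := by linarith
  have hT1 : 1 ≤ T := by linarith
  have hL : 0 < Real.log T := Real.log_pos (by linarith)
  have hff' := hff k hk0 hk1
  obtain ⟨h, hh1, -, hh3⟩ := hfn k hk0 hk1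
  set Y := NN T * (y2 T * y2 T) with hY
  let h' : ℕ → ℂ := fun n => if n < 1 then 0 else h n
  have hF : ∀ s, FF k T s = Dp h' Y s := by
    intro s
    rw [hh1 s]
    refine congrFun (Dp_congr _ _ _ fun n hn => ?_) s
    simp only [h']
    rw [if_neg (by omega)]
  have hYle : ((Y:ℕ) : ℝ) ≤ T ^ (2:ℝ) := Y_le hT1 h9
  have hY1 : 1 ≤ Y := le_trans (by omega) (le_Y hT1)
  set E := Real.exp (k ^ 2 * V T) with hE
  set B := T * V T ^ C1 * E with hB
  have hB0 : 0 ≤ B := by positivity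
  -- the line of the critical abscissa
  have hint0 : 0 ≤ ∫ t in (T / 4)..(8 * T), ‖FF k T (cl t)‖ ^ 2 :=
    intervalIntegral.integral_nonneg (by linarith) fun _ _ => sq_nonneg _
  have hT20 : 0 ≤ 20 * T ^ ((1:ℝ) / 2) := by positivity
  have hz1 : 9 * lam / Real.log T ≤ 1 := by
    rw [div_le_one hL]
    nlinarith
  have hre : |z.re| ≤ 9 * lam / Real.log T := (Complex.abs_re_le_norm z).trans hz
  have him : |z.im| ≤ 1 := (Complex.abs_im_le_norm z).trans (hz.trans hz1)
  have hcF : Continuous fun t : ℝ => ‖FF k T (cl t + (z.re : ℂ))‖ ^ 2 :=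
    (((cont_FF k T).comp (cont_cl.add continuous_const)).norm).pow 2
  have hmain : ∫ t in (T / 2)..(4 * T), ‖FF k T (cl t + (z.re : ℂ))‖ ^ 2 ≤
      Real.exp (36 * lam) * B := by
    have hexp1 : 1 ≤ Real.exp (36 * lam) := Real.one_le_exp (by positivity)
    have hgrow : ∀ t ∈ Set.Icc (T / 2) (4 * T), ∀ R : ℝ, T / 4 ≤ R →
        ∫ u in (t - R)..(t + R), ‖Dp h' Y (cl u)‖ ^ 2 ≤ T ^ ((1:ℝ) / 2) * R := by
      intro t ht R hR
      have := (hh3 t ht R hR).1
      simpa only [hF] using this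
    rcases lt_trichotomy z.re 0 with hx | hx | hx
    · have h1 := (hsh h' 1 Y T (-z.re) hT le_rfl hY1 (fun n hn => if_pos hn) (by linarith)
        (by rw [abs_of_neg hx] at hre; linarith) hgrow).2
      simp only [← hF] at h1
      have h2 : ∀ t : ℝ, cl t - ((-z.re : ℝ) : ℂ) = cl t + (z.re : ℂ) := by
        intro t; push_cast; ring
      simp only [h2] at h1
      refine h1.trans ?_
      refine mul_le_mul ?_ hff' (by linarith) (Real.exp_pos _).le
      have hY0 : (0:ℝ) ≤ (Y:ℝ) := Nat.cast_nonneg _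
      refine (Real.rpow_le_rpow hY0 hYle (by linarith)).trans ?_
      rw [← Real.rpow_mul hT0.le, Real.rpow_def_of_pos hT0]
      rw [Real.exp_le_exp]
      rw [abs_of_neg hx] at hre
      have h3 : -z.re * Real.log T ≤ 9 * lam := by
        rw [le_div_iff₀ hL] at hre
        exact hre
      nlinarith
    · rw [hx]
      simp only [Complex.ofReal_zero, add_zero]
      have h1 : ∫ t in (T / 2)..(4 * T), ‖FF k T (cl t)‖ ^ 2 ≤
          ∫ t in (T / 4)..(8 * T), ‖FF k T (cl t)‖ ^ 2 := by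
        apply intervalIntegral.integral_mono_interval (by linarith) (by linarith) (by linarith)
        · exact Filter.Eventually.of_forall fun t => sq_nonneg _
        · exact (((cont_FF k T).comp cont_cl).norm.pow 2).intervalIntegrable _ _
      refine h1.trans ?_
      calc ∫ t in (T / 4)..(8 * T), ‖FF k T (cl t)‖ ^ 2 ≤ B := by linarith
        _ ≤ Real.exp (36 * lam) * B := le_mul_of_one_le_left hB0 hexp1
    · have h1 := (hsh h' 1 Y T z.re hT le_rfl hY1 (fun n hn => if_pos hn) hx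
        (by rw [abs_of_pos hx] at hre; linarith) hgrow).1
      simp only [← hF, Nat.cast_one, Real.one_rpow, one_mul] at h1
      refine h1.trans ?_
      calc (∫ t in (T / 4)..(8 * T), ‖FF k T (cl t)‖ ^ 2) + 20 * T ^ ((1:ℝ) / 2) ≤ B := hff'
        _ ≤ Real.exp (36 * lam) * B := le_mul_of_one_le_left hB0 hexp1
  have hshift : ∫ t in (T / 2 + 1)..(4 * T - 1), ‖FF k T (cl t + z)‖ ^ 2 ≤
      ∫ t in (T / 2)..(4 * T), ‖FF k T (cl t + (z.re : ℂ))‖ ^ 2 := by
    have e1 : ∀ t : ℝ, ‖FF k T (cl t + z)‖ ^ 2 =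
        (fun u : ℝ => ‖FF k T (cl u + (z.re : ℂ))‖ ^ 2) (t + z.im) := by
      intro t
      simp only
      congr 3
      unfold cl
      push_cast
      nth_rewrite 1 [← Complex.re_add_im z]
      ring
    simp only [e1]
    rw [intervalIntegral.integral_comp_add_right (fun u : ℝ => ‖FF k T (cl u + (z.re : ℂ))‖ ^ 2)]
    rw [abs_le] at him
    apply intervalIntegral.integral_mono_interval (by linarith) (by linarith) (by linarith)
    · exact Filter.Eventually.of_forall fun t => sq_nonneg _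
    · exact hcF.intervalIntegrable _ _
  refine hshift.trans (hmain.trans ?_)
  have e1 : Real.exp (36 * lam) ≤ Real.exp (max 36 C1 * lam) := by
    rw [Real.exp_le_exp]
    exact mul_le_mul_of_nonneg_right (le_max_left _ _) (by linarith)
  have e2 : V T ^ C1 ≤ V T ^ (max 36 C1) := Real.rpow_le_rpow_of_exponent_le hV (le_max_right _ _)
  rw [hB]
  calc Real.exp (36 * lam) * (T * V T ^ C1 * E)
      ≤ Real.exp (max 36 C1 * lam) * (T * V T ^ (max 36 C1) * E) := by
        have : 0 ≤ V T ^ C1 := Real.rpow_nonneg (by linarith) _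
        gcongr
    _ = _ := by ring

end Pool.Agent.Q280.CD
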