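import Pool.Agent.Q280.CD.M8

set_option autoImplicit false

/-! Job M9: the product to the right of the critical line. -/

namespace Pool.Agent.Q280.CD

open MeasureTheory Filter Pool.Agent.Q276.CD

lemma cont_DL (k T : ℝ) : Continuous (DL k T) := cont_Dr _ _

lemma cont_AA (k T : ℝ) : Continuous (AA k T) := cont_Dr _ _

lemma ev_l4 (A : ℝ) : ∀ᶠ T : ℝ in atTop, A * l3 T ^ 4 ≤ Real.log T := by
  have h1 : ∀ᶠ x : ℝ in atTop, ‖Real.log x ^ 4‖ ≤ (1 / (|A| + 1)) * ‖x‖ := by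
    have := (Real.isLittleO_pow_log_id_atTop (n := 4)).bound (show (0:ℝ) < 1 / (|A| + 1) by positivity)
    exact this
  filter_upwards [tendsto_V.eventually h1, ev_V_div 1, tendsto_V.eventually_ge_atTop 1] with T h h2 hV
  have h3 : l3 T ^ 4 ≤ (1 / (|A| + 1)) * V T := by
    have := h
    rw [Real.norm_eq_abs, Real.norm_eq_abs, abs_of_nonneg (by positivity),
      abs_of_nonneg (by linarith : (0:ℝ) ≤ V T)] at this
    exact this
  have h4 : 0 ≤ l3 T ^ 4 := by positivity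
  calc A * l3 T ^ 4 ≤ (|A| + 1) * l3 T ^ 4 := by
        apply mul_le_mul_of_nonneg_right _ h4
        linarith [le_abs_self A]
    _ ≤ (|A| + 1) * ((1 / (|A| + 1)) * V T) := by gcongr
    _ = V T := by field_simp
    _ ≤ Real.log T := by linarith

theorem t_M9 (h3 : P_M3) (h4 : P_M4) (h5 : P_M5) (hz : P_ZN) (hsh : P_SH) (hfn : P_FN) : P_M9 := by
  obtain ⟨C1, hC1, h3⟩ := h3
  obtain ⟨C4, hC4, h4⟩ := h4
  obtain ⟨C5, hC5, hff⟩ := ff_int h5 hz
  set C2 := max C1 1 with hC2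
  set D := max C4 C5 with hD
  have hC2pos : 1 ≤ C2 := le_max_right _ _
  have hD1 : 1 ≤ D := hC5.trans (le_max_right _ _)
  refine ⟨C2, by linarith, ?_⟩
  filter_upwards [h3 C2 (le_max_left _ _), h4, hff, hfn, eventually_ge_atTop 4,
    tendsto_V.eventually_ge_atTop 12, ev_l4 C2, tendsto_l3.eventually_ge_atTop 1,
    tendsto_l3.eventually_ge_atTop (10 * (D + 3)), ev_pow (1/2) 1 20 (by norm_num)]
    with T h3 h4 hff hfn hT hV hl4 hl1 hl2 hp k hk0 hk1
  rw [Real.rpow_one] at hp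
  have hT0 : 0 < T := by linarith
  have hT1 : 1 ≤ T := by linarith
  have hV0 : 0 < V T := by linarith
  have hL : 0 < Real.log T := Real.log_pos (by linarith)
  obtain ⟨h, hh1, hh2, hh3⟩ := hfn k hk0 hk1
  set Y := NN T * (y2 T * y2 T) with hY
  set E := Real.exp (k ^ 2 * V T) with hE
  set Δ := C2 * l3 T ^ 4 / Real.log T with hΔ
  have hΔ0 : 0 < Δ := by positivity
  have hΔ1 : Δ ≤ 1 := by rw [hΔ, div_le_one hL]; exact hl4
  have h3' := h3 k hk0 hk1
  have h4' := h4 k hk0 hk1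
  have hff' := hff k hk0 hk1
  have hV1 : 1 ≤ V T := by linarith
  -- the tail
  have hgrow : ∀ t ∈ Set.Icc (T / 2) (4 * T), ∀ R : ℝ, T / 4 ≤ R →
      ∫ u in (t - R)..(t + R), ‖Dp (fun n => if n ≤ y2 T then 0 else h n) Y (cl u)‖ ^ 2 ≤
        T ^ ((1:ℝ) / 2) * R := by
    intro t ht R hR
    have := (hh3 t ht R hR).2
    simpa only [hh2] using this
  have hs1 := (hsh (fun n => if n ≤ y2 T then 0 else h n) (y2 T + 1) Y T Δ hT (by omega) (le_Y hT1)
    (fun n hn => if_pos (by omega)) hΔ0 hΔ1 hgrow).1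
  simp only [← hh2] at hs1
  have hcF : Continuous fun t : ℝ => FF k T (cl t) := (cont_FF k T).comp cont_cl
  have hcD : Continuous fun t : ℝ => DL k T (cl t) := (cont_DL k T).comp cont_cl
  have hH : ∫ u in (T / 4)..(8 * T), ‖FF k T (cl u) - DL k T (cl u)‖ ^ 2 ≤
      2 * (∫ u in (T / 4)..(8 * T), ‖FF k T (cl u)‖ ^ 2) +
        2 * (∫ u in (T / 4)..(8 * T), ‖DL k T (cl u)‖ ^ 2) := by
    have c1 : Continuous fun t : ℝ => 2 * ‖FF k T (cl t)‖ ^ 2 := continuous_const.mul (hcF.norm.pow 2)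
    have c2 : Continuous fun t : ℝ => 2 * ‖DL k T (cl t)‖ ^ 2 := continuous_const.mul (hcD.norm.pow 2)
    rw [← intervalIntegral.integral_const_mul, ← intervalIntegral.integral_const_mul,
      ← intervalIntegral.integral_add (c1.intervalIntegrable _ _) (c2.intervalIntegrable _ _)]
    exact intervalIntegral.integral_mono_on (by linarith)
      (((hcF.sub hcD).norm.pow 2).intervalIntegrable _ _)
      ((c1.add c2).intervalIntegrable _ _) fun t _ => norm_sq_sub_le _ _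
  have hVD : ∀ x, x ≤ D → V T ^ x ≤ V T ^ D := fun x hx => Real.rpow_le_rpow_of_exponent_le hV1 hx
  set W := T * V T ^ D * E with hW
  have hW5 : T * V T ^ C5 * E ≤ W := by
    have := hVD C5 (le_max_right _ _)
    exact mul_le_mul_of_nonneg_right (mul_le_mul_of_nonneg_left this hT0.le) (Real.exp_pos _).le
  have hW4 : T * V T ^ C4 * E ≤ W := by
    have := hVD C4 (le_max_left _ _)
    exact mul_le_mul_of_nonneg_right (mul_le_mul_of_nonneg_left this hT0.le) (Real.exp_pos _).le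
  have hW0 : 0 ≤ W := by positivity
  have hT20 : 0 ≤ 20 * T ^ ((1:ℝ) / 2) := by positivity
  have hTW : T ≤ W := by
    have hE1 : 1 ≤ E := Real.one_le_exp (by positivity)
    have hVC : 1 ≤ V T ^ D := Real.one_le_rpow hV1 (by linarith)
    calc T = T * 1 * 1 := by ring
      _ ≤ _ := by rw [hW]; gcongr
  have hH2 : (∫ u in (T / 4)..(8 * T), ‖FF k T (cl u) - DL k T (cl u)‖ ^ 2) +
      20 * T ^ ((1:ℝ) / 2) ≤ 5 * W := by linarith
  have hy : ((y2 T + 1 : ℕ) : ℝ) ^ (-(2 * Δ)) ≤ Real.exp (-(C2 * l3 T ^ 4 / 10)) := by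
    have e1 : T ^ ((1:ℝ) / 20) ≤ ((y2 T + 1 : ℕ) : ℝ) := by
      push_cast
      exact y2_lt.le
    have e2 : 0 < T ^ ((1:ℝ) / 20) := Real.rpow_pos_of_pos hT0 _
    refine (Real.rpow_le_rpow_of_nonpos e2 e1 (by linarith)).trans ?_
    rw [← Real.rpow_mul hT0.le, Real.rpow_def_of_pos hT0]
    apply le_of_eq
    congr 1
    rw [hΔ]
    field_simp
    ring
  have hs2 : ∫ t in (T / 2)..(4 * T), ‖FF k T (cl t + (Δ : ℂ)) - DL k T (cl t + (Δ : ℂ))‖ ^ 2 ≤
      Real.exp (-(C2 * l3 T ^ 4 / 10)) * (5 * W) := by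
    refine hs1.trans ?_
    refine mul_le_mul hy hH2 ?_ (Real.exp_pos _).le
    have : 0 ≤ ∫ u in (T / 4)..(8 * T), ‖FF k T (cl u) - DL k T (cl u)‖ ^ 2 :=
      intervalIntegral.integral_nonneg (by linarith) fun _ _ => sq_nonneg _
    linarith
  -- the powers of V
  have hpow : Real.exp (-(C2 * l3 T ^ 4 / 10)) * V T ^ D ≤ V T ^ (-(3:ℝ)) := by
    have hVe : V T = Real.exp (l3 T) := by
      unfold l3
      rw [Real.exp_log hV0]
    rw [hVe, ← Real.exp_mul, ← Real.exp_mul, ← Real.exp_add, Real.exp_le_exp]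
    have q1 : 10 * (D + 3) * l3 T ≤ l3 T ^ 4 := by
      have : l3 T * l3 T ≤ l3 T ^ 4 := by
        have : 1 ≤ l3 T ^ 2 := one_le_pow₀ hl1
        nlinarith [sq_nonneg (l3 T)]
      nlinarith
    have q2 : l3 T ^ 4 ≤ C2 * l3 T ^ 4 := le_mul_of_one_le_left (by positivity) hC2pos
    nlinarith
  have hs3 : ∫ t in (T / 2)..(4 * T), ‖FF k T (cl t + (Δ : ℂ)) - DL k T (cl t + (Δ : ℂ))‖ ^ 2 ≤
      5 * (T * V T ^ (-(3:ℝ)) * E) := by
    refine hs2.trans ?_
    rw [hW]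
    calc Real.exp (-(C2 * l3 T ^ 4 / 10)) * (5 * (T * V T ^ D * E))
        = 5 * (T * (Real.exp (-(C2 * l3 T ^ 4 / 10)) * V T ^ D) * E) := by ring
      _ ≤ _ := by gcongr
  have hcA : Continuous fun t : ℝ => AA k T (cl t) := (cont_AA k T).comp cont_cl
  have hcD2 : Continuous fun t : ℝ => DL k T (cl t + (Δ : ℂ)) :=
    (cont_DL k T).comp (cont_cl.add continuous_const)
  have hcF2 : Continuous fun t : ℝ => FF k T (cl t + (Δ : ℂ)) :=
    (cont_FF k T).comp (cont_cl.add continuous_const)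
  have hm : ∫ t in (T / 2)..(4 * T), ‖DL k T (cl t + (Δ : ℂ)) - AA k T (cl t)‖ ^ 2 ≤
      T * V T ^ (-(3:ℝ)) * E := by
    refine le_trans ?_ h3'
    apply intervalIntegral.integral_mono_interval (by linarith) (by linarith) (by linarith)
    · exact Filter.Eventually.of_forall fun t => sq_nonneg _
    · exact ((hcD2.sub hcA).norm.pow 2).intervalIntegrable _ _
  have hfin : ∫ t in (T / 2)..(4 * T), ‖FF k T (cl t + (Δ : ℂ)) - AA k T (cl t)‖ ^ 2 ≤
      2 * (∫ t in (T / 2)..(4 * T), ‖FF k T (cl t + (Δ : ℂ)) - DL k T (cl t + (Δ : ℂ))‖ ^ 2) +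
      2 * (∫ t in (T / 2)..(4 * T), ‖DL k T (cl t + (Δ : ℂ)) - AA k T (cl t)‖ ^ 2) := by
    have c1 : Continuous fun t : ℝ => 2 * ‖FF k T (cl t + (Δ : ℂ)) - DL k T (cl t + (Δ : ℂ))‖ ^ 2 :=
      continuous_const.mul ((hcF2.sub hcD2).norm.pow 2)
    have c2 : Continuous fun t : ℝ => 2 * ‖DL k T (cl t + (Δ : ℂ)) - AA k T (cl t)‖ ^ 2 :=
      continuous_const.mul ((hcD2.sub hcA).norm.pow 2)
    rw [← intervalIntegral.integral_const_mul, ← intervalIntegral.integral_const_mul,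
      ← intervalIntegral.integral_add (c1.intervalIntegrable _ _) (c2.intervalIntegrable _ _)]
    refine intervalIntegral.integral_mono_on (by linarith)
      (((hcF2.sub hcA).norm.pow 2).intervalIntegrable _ _)
      ((c1.add c2).intervalIntegrable _ _) fun t _ => ?_
    have e1 : FF k T (cl t + (Δ : ℂ)) - AA k T (cl t) =
        (FF k T (cl t + (Δ : ℂ)) - DL k T (cl t + (Δ : ℂ))) +
        (DL k T (cl t + (Δ : ℂ)) - AA k T (cl t)) := by ring
    rw [e1]
    exact norm_sq_add_le _ _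
  refine hfin.trans ?_
  have e3 : V T ^ (-(2:ℝ)) = V T * V T ^ (-(3:ℝ)) := by
    nth_rewrite 2 [← Real.rpow_one (V T)]
    rw [← Real.rpow_add hV0]
    norm_num
  rw [e3]
  have hZ : 0 ≤ T * V T ^ (-(3:ℝ)) * E := by positivity
  have e4 : T * (V T * V T ^ (-(3:ℝ))) * E = V T * (T * V T ^ (-(3:ℝ)) * E) := by ring
  rw [e4]
  nlinarith [mul_le_mul_of_nonneg_right hV hZ]

end Pool.Agent.Q280.CD
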