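import Pool.Agent.Q280.CD.Bas

set_option autoImplicit false

/-! Asymptotics of the parameters. -/

namespace Pool.Agent.Q280.CD

open MeasureTheory Filter Pool.Agent.Q276.CD

lemma ev_Vpow_div (n : ℕ) (A : ℝ) : ∀ᶠ T : ℝ in atTop, A * V T ^ n ≤ Real.log T := by
  have h1 : ∀ᶠ x : ℝ in atTop, ‖Real.log x ^ n‖ ≤ (1 / (|A| + 1)) * ‖x‖ := by
    have := (Real.isLittleO_pow_log_id_atTop (n := n)).bound (show (0:ℝ) < 1 / (|A| + 1) by positivity)
    exact this
  filter_upwards [Real.tendsto_log_atTop.eventually h1,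
    Real.tendsto_log_atTop.eventually_ge_atTop 1] with T h hL
  have hV : 0 ≤ V T := Real.log_nonneg hL
  have h4 : 0 ≤ V T ^ n := by positivity
  have h2 : V T ^ n ≤ (1 / (|A| + 1)) * Real.log T := by
    have := h
    rw [Real.norm_eq_abs, Real.norm_eq_abs,
      abs_of_nonneg (show 0 ≤ Real.log (Real.log T) ^ n from h4),
      abs_of_nonneg (by linarith : (0:ℝ) ≤ Real.log T)] at this
    exact this
  calc A * V T ^ n ≤ (|A| + 1) * V T ^ n := by
        apply mul_le_mul_of_nonneg_right _ h4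
        linarith [le_abs_self A]
    _ ≤ (|A| + 1) * ((1 / (|A| + 1)) * Real.log T) := by gcongr
    _ = Real.log T := by field_simp

lemma y0_le {T : ℝ} (hL : 0 ≤ Real.log T) : (y0 T : ℝ) ≤ 2 * Real.exp (Real.log T / V T ^ 4) := by
  unfold y0
  push_cast
  have h1 : (⌊Real.exp (Real.log T / V T ^ 4)⌋₊ : ℝ) ≤ Real.exp (Real.log T / V T ^ 4) :=
    Nat.floor_le (Real.exp_pos _).le
  have h2 : 1 ≤ Real.exp (Real.log T / V T ^ 4) := Real.one_le_exp (by positivity)
  linarith

lemma y0_pos (T : ℝ) : 1 ≤ y0 T := by unfold y0; omega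

/-- `y0 ^ d0 ≤ T ^ η` -/
lemma ev_y0_pow {η : ℝ} (hη : 0 < η) : ∀ᶠ T : ℝ in atTop, ((y0 T ^ d0 T : ℕ) : ℝ) ≤ T ^ η := by
  filter_upwards [ev_Vpow_div 2 (4 / η), tendsto_V.eventually_ge_atTop (4 / η + 1),
    eventually_gt_atTop 1] with T h1 h2 hT
  have hL : 0 < Real.log T := Real.log_pos hT
  have hT0 : 0 < T := by linarith
  have hη4 : 0 < 4 / η := by positivity
  have hV1 : 1 ≤ V T := by linarith
  have hy := y0_le hL.le
  have hy0 : (0:ℝ) < y0 T := by exact_mod_cast (y0_pos T)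
  have hd : (d0 T : ℝ) ≤ 2 * V T ^ 2 := by
    unfold d0
    have := Nat.ceil_lt_add_one (show 0 ≤ V T ^ 2 by positivity)
    have : 1 ≤ V T ^ 2 := one_le_pow₀ hV1
    linarith
  push_cast
  rw [← Real.rpow_natCast, Real.rpow_def_of_pos hy0, Real.rpow_def_of_pos hT0, Real.exp_le_exp]
  have hlog : Real.log (y0 T) ≤ 1 + Real.log T / V T ^ 4 := by
    have := Real.log_le_log hy0 hy
    rw [Real.log_mul (by norm_num) (Real.exp_pos _).ne', Real.log_exp] at this
    have := Real.log_two_lt_d9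
    linarith
  have hlog0 : 0 ≤ Real.log (y0 T) := Real.log_nonneg (by exact_mod_cast y0_pos T)
  calc Real.log (y0 T) * (d0 T) ≤ (1 + Real.log T / V T ^ 4) * (2 * V T ^ 2) :=
        mul_le_mul hlog hd (Nat.cast_nonneg _) (by positivity)
    _ = 2 * V T ^ 2 + 2 * Real.log T / V T ^ 2 := by
        have : V T ≠ 0 := by linarith
        field_simp
    _ ≤ η / 2 * Real.log T + η / 2 * Real.log T := by
        apply add_le_add
        · have := mul_le_mul_of_nonneg_left h1 (by positivity : 0 ≤ η / 2)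
          calc 2 * V T ^ 2 = η / 2 * (4 / η * V T ^ 2) := by field_simp; ring
            _ ≤ _ := this
        · have hV2 : 4 / η ≤ V T ^ 2 := by nlinarith
          rw [div_le_iff₀ (by positivity)]
          have : 4 ≤ η * V T ^ 2 := by
            rw [div_le_iff₀ hη] at hV2
            linarith
          nlinarith [mul_le_mul_of_nonneg_right this hL.le]
    _ = Real.log T * η := by ring

/-- Mertens at `y0` -/
lemma ev_R1_y0 : ∃ C : ℝ, 0 ≤ C ∧ ∀ᶠ T : ℝ in atTop, R1 (y0 T) ≤ V T + C ∧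
    Real.exp (-R1 (y0 T)) ≤ Real.exp C * (V T ^ 4 / Real.log T) := by
  obtain ⟨C, hC, h⟩ := R1_bd
  refine ⟨C + 1, by linarith, ?_⟩
  filter_upwards [ev_Vpow_div 4 4, tendsto_V.eventually_ge_atTop 1, eventually_gt_atTop 1]
    with T h1 hV hT
  have hL : 0 < Real.log T := Real.log_pos hT
  have hV0 : 0 < V T := by linarith
  have hV4 : 1 ≤ V T ^ 4 := one_le_pow₀ hV
  have hq : 4 ≤ Real.log T / V T ^ 4 := by
    rw [le_div_iff₀ (by positivity)]; exact h1
  set x := Real.log T / V T ^ 4 with hx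
  have hex : Real.exp 4 ≤ Real.exp x := Real.exp_le_exp.2 hq
  have he4 : (5:ℝ) ≤ Real.exp 4 := by
    have := Real.add_one_le_exp (4:ℝ)
    linarith
  set N := ⌊Real.exp x⌋₊ with hN
  have hN1 : (N:ℝ) ≤ Real.exp x := Nat.floor_le (Real.exp_pos _).le
  have hN2 : Real.exp x < N + 1 := Nat.lt_floor_add_one _
  have hN3 : 3 ≤ N := by
    rw [hN, Nat.le_floor_iff (Real.exp_pos _).le]
    push_cast
    linarith
  have hb := h N hN3
  have hy : y0 T = N + 1 := rfl
  rw [hy]
  have hNpos : (0:ℝ) < N := by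
    have : 0 < N := by omega
    exact_mod_cast this
  have hlN1 : Real.log N ≤ x := by
    have := Real.log_le_log hNpos hN1
    rwa [Real.log_exp] at this
  have hlN2 : x - 1 ≤ Real.log N := by
    rw [Real.le_log_iff_exp_le hNpos, Real.exp_sub]
    rw [div_le_iff₀ (Real.exp_pos _)]
    have he1 : (2:ℝ) ≤ Real.exp 1 := by
      have := Real.add_one_le_exp (1:ℝ)
      linarith
    have : (1:ℝ) ≤ N := by exact_mod_cast (by omega : 1 ≤ N)
    nlinarith
  have hlN0 : 0 < Real.log N := by linarith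
  have hlx : Real.log x ≤ V T := by
    unfold V
    apply Real.log_le_log (by linarith)
    rw [hx]
    exact div_le_self hL.le hV4
  rw [abs_le] at hb
  constructor
  · have : Real.log (Real.log N) ≤ Real.log x := Real.log_le_log hlN0 hlN1
    linarith [hb.2]
  · have h5 : Real.log (x / 2) ≤ Real.log (Real.log N) := by
      apply Real.log_le_log (by linarith)
      linarith
    have h6 : Real.log (x / 2) = Real.log x - Real.log 2 :=
      Real.log_div (by linarith) (by norm_num)
    have h7 := Real.log_two_lt_d9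
    have h8 : -R1 (N + 1) ≤ (C + 1) + - Real.log x := by linarith [hb.1]
    refine (Real.exp_le_exp.2 h8).trans ?_
    rw [Real.exp_add, Real.exp_neg, Real.exp_log (by linarith)]
    apply le_of_eq
    congr 1
    rw [hx, inv_div]

lemma ev_V_quad (a K C : ℝ) (ha : 0 < a) : ∀ᶠ T : ℝ in atTop, K * (V T + C) ≤ a * V T ^ 2 := by
  filter_upwards [tendsto_V.eventually_ge_atTop (max 1 ((|K| * (1 + |C|)) / a))] with T h
  have h1 : 1 ≤ V T := (le_max_left _ _).trans h
  have h2 : (|K| * (1 + |C|)) / a ≤ V T := (le_max_right _ _).trans h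
  rw [div_le_iff₀ ha] at h2
  have h3 : K * (V T + C) ≤ |K| * ((1 + |C|) * V T) := by
    calc K * (V T + C) ≤ |K * (V T + C)| := le_abs_self _
      _ = |K| * |V T + C| := abs_mul _ _
      _ ≤ |K| * ((1 + |C|) * V T) := by
        apply mul_le_mul_of_nonneg_left _ (abs_nonneg _)
        calc |V T + C| ≤ |V T| + |C| := abs_add_le _ _
          _ = V T + |C| := by rw [abs_of_nonneg (by linarith)]
          _ ≤ (1 + |C|) * V T := by nlinarith [abs_nonneg C]
  nlinarith

/-- the Rankin factor is very small -/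
lemma ev_rr (K C : ℝ) : ∀ᶠ T : ℝ in atTop, (rr ^ d0 T)⁻¹ * Real.exp (K * (V T + C)) ≤ 1 := by
  have hl : 0 < Real.log rr := Real.log_pos (by unfold rr; norm_num)
  filter_upwards [ev_V_quad (Real.log rr) K C hl, tendsto_V.eventually_ge_atTop 1] with T h hV
  have h1 : V T ^ 2 ≤ (d0 T : ℝ) := by unfold d0; exact Nat.le_ceil _
  have h2 : Real.exp (K * (V T + C)) ≤ rr ^ d0 T := by
    rw [← Real.rpow_natCast, Real.rpow_def_of_pos rr_pos, Real.exp_le_exp]
    nlinarith
  rw [inv_mul_le_iff₀ (pow_pos rr_pos _), mul_one]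
  exact h2

end Pool.Agent.Q280.CD
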