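import Pool.Agent.Q276.CD.Stm2

set_option autoImplicit false

/-! Continuity and trivial bounds for the Dirichlet polynomials of project CD. -/

namespace Pool.Agent.Q280.CD

open MeasureTheory Filter Pool.Agent.Q276.CD

lemma cl_re (t : ℝ) : (cl t).re = 1 / 2 := by simp [cl]

lemma cl_im (t : ℝ) : (cl t).im = t := by simp [cl]

lemma cont_cl : Continuous cl := by unfold cl; fun_prop

lemma cl_ne_one (t : ℝ) : cl t ≠ 1 := by
  intro h
  have := congrArg Complex.re h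
  rw [cl_re] at this
  norm_num at this

lemma cont_zeta : Continuous fun t : ℝ => riemannZeta (cl t) := by
  rw [continuous_iff_continuousAt]
  intro t
  exact ContinuousAt.comp (f := cl) (g := riemannZeta)
    (differentiableAt_riemannZeta (cl_ne_one t)).continuousAt cont_cl.continuousAt

lemma cont_Dp (a : ℕ → ℂ) (Y : ℕ) : Continuous (Dp a Y) := by
  unfold Dp
  refine continuous_finsetSum _ fun n hn => ?_
  have hn' : (n : ℂ) ≠ 0 := by
    have := (Finset.mem_Icc.1 hn).1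
    exact_mod_cast (by omega : n ≠ 0)
  refine continuous_const.mul ?_
  exact Continuous.const_cpow (by fun_prop) (Or.inl hn')

lemma cont_Dr (f : ArithmeticFunction ℝ) (Y : ℕ) : Continuous (Dr f Y) := cont_Dp _ _

lemma norm_cpow_cl_le {n : ℕ} (hn : 1 ≤ n) (t : ℝ) : ‖(n : ℂ) ^ (-(cl t))‖ ≤ 1 := by
  rw [Complex.norm_natCast_cpow_of_pos (by omega)]
  apply Real.rpow_le_one_of_one_le_of_nonpos (by exact_mod_cast hn)
  rw [Complex.neg_re, cl_re]
  norm_num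

lemma norm_Dr_cl_le (f : ArithmeticFunction ℝ) (Y : ℕ) (hf : ∀ n, |f n| ≤ 1) (t : ℝ) :
    ‖Dr f Y (cl t)‖ ≤ Y := by
  unfold Dr Dp
  refine (norm_sum_le _ _).trans ?_
  have h1 : ∀ n ∈ Finset.Icc 1 Y, ‖((f n : ℝ) : ℂ) * (n : ℂ) ^ (-(cl t))‖ ≤ 1 := by
    intro n hn
    rw [norm_mul, Complex.norm_real, Real.norm_eq_abs]
    exact mul_le_one₀ (hf n) (norm_nonneg _) (norm_cpow_cl_le (Finset.mem_Icc.1 hn).1 t)
  refine (Finset.sum_le_sum h1).trans ?_
  simp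

lemma y2_le {T : ℝ} (hT : 0 ≤ T) : (y2 T : ℝ) ≤ T ^ ((1:ℝ) / 20) := by
  unfold y2
  exact Nat.floor_le (Real.rpow_nonneg hT _)

lemma y2_lt {T : ℝ} : T ^ ((1:ℝ) / 20) < (y2 T : ℝ) + 1 := by
  unfold y2
  exact Nat.lt_floor_add_one _

lemma one_le_y2 {T : ℝ} (hT : 1 ≤ T) : 1 ≤ y2 T := by
  unfold y2
  rw [Nat.one_le_floor_iff]
  exact Real.one_le_rpow hT (by norm_num)

lemma norm_AM_le {k T : ℝ} (hk : |k| ≤ 1) (hT : 0 ≤ T) (t : ℝ) :
    ‖AA k T (cl t) * MM T (cl t)‖ ≤ T ^ ((1:ℝ) / 10) := by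
  rw [norm_mul]
  have h1 : ‖AA k T (cl t)‖ ≤ T ^ ((1:ℝ) / 20) :=
    (norm_Dr_cl_le _ _ (fun n => aI_abs hk n) t).trans (y2_le hT)
  have h2 : ‖MM T (cl t)‖ ≤ T ^ ((1:ℝ) / 20) :=
    (norm_Dr_cl_le _ _ (fun n => muM_abs n) t).trans (y2_le hT)
  refine (mul_le_mul h1 h2 (norm_nonneg _) (Real.rpow_nonneg hT _)).trans ?_
  rw [← Real.rpow_add_of_nonneg hT (by norm_num) (by norm_num)]
  norm_num

lemma tendsto_V : Tendsto V atTop atTop := by
  unfold V
  exact Real.tendsto_log_atTop.comp Real.tendsto_log_atTop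

lemma tendsto_l3 : Tendsto l3 atTop atTop := by
  unfold l3
  exact Real.tendsto_log_atTop.comp tendsto_V

lemma ev_pow (a b A : ℝ) (hab : a < b) : ∀ᶠ T : ℝ in atTop, A * T ^ a ≤ T ^ b := by
  have h1 : ∀ᶠ T : ℝ in atTop, A ≤ T ^ (b - a) :=
    (tendsto_rpow_atTop (sub_pos.2 hab)).eventually_ge_atTop A
  filter_upwards [h1, eventually_gt_atTop 0] with T h1 h0
  have h2 : T ^ b = T ^ (b - a) * T ^ a := by
    rw [← Real.rpow_add h0]; congr 1; ring
  rw [h2]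
  exact mul_le_mul_of_nonneg_right h1 (Real.rpow_nonneg h0.le _)

end Pool.Agent.Q280.CD
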