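import Pool.Agent.Q276.CD.Sm

set_option autoImplicit false

/-! The convolution of the truncated exponential with one. -/

namespace Pool.Agent.Q280.CD

open Finset Filter Pool.Agent.Q276.CD

/-- partial sums of the exponential -/
noncomputable def bs (κ : ℝ) (j : ℕ) : ℝ := ∑ i ∈ range (j + 1), κ ^ i / (i.factorial : ℝ)

/-- local values of the truncated exponential, zero at the large primes -/
noncomputable def ch (κ : ℝ) (N p j : ℕ) : ℝ := if j = 0 then 1 else if p < N then ek κ p j else 0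

/-- local values of the convolution -/
noncomputable def cv (κ : ℝ) (N p j : ℕ) : ℝ := if p < N then bs κ j else 1

lemma bs_zero (κ : ℝ) : bs κ 0 = 1 := by simp [bs]

lemma bs_one (κ : ℝ) : bs κ 1 = 1 + κ := by simp [bs, sum_range_succ]

lemma bs_succ (κ : ℝ) (j : ℕ) : bs κ (j + 1) = bs κ j + κ ^ (j + 1) / ((j + 1).factorial : ℝ) := by
  unfold bs
  rw [sum_range_succ]

lemma bs_inv {a : ℝ} (h0 : 0 ≤ a) (h1 : a ≤ 1) (j : ℕ) :
    (Even j → a ^ j / (j.factorial : ℝ) ≤ bs (-a) j ∧ bs (-a) j ≤ 1) ∧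
    (¬ Even j → 0 ≤ bs (-a) j ∧ bs (-a) j ≤ 1 - a ^ j / (j.factorial : ℝ)) := by
  induction j with
  | zero => simp [bs]
  | succ j ih =>
    have hdec : a ^ (j + 1) / ((j + 1).factorial : ℝ) ≤ a ^ j / (j.factorial : ℝ) := by
      have hf : ((j + 1).factorial : ℝ) = (j + 1) * (j.factorial : ℝ) := by
        rw [Nat.factorial_succ]; push_cast; ring
      have hj : (0:ℝ) < (j.factorial : ℝ) := by exact_mod_cast j.factorial_pos
      rw [hf, div_le_div_iff₀ (by positivity) hj, pow_succ]
      have h2 : 0 ≤ a ^ j := pow_nonneg h0 j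
      have h3 : 0 ≤ (j:ℝ) := Nat.cast_nonneg j
      have h4 : a ^ j * a ≤ a ^ j * (j + 1) := mul_le_mul_of_nonneg_left (by linarith) h2
      nlinarith [mul_le_mul_of_nonneg_right h4 hj.le]
    have hnn : 0 ≤ a ^ (j + 1) / ((j + 1).factorial : ℝ) := by positivity
    rw [bs_succ]
    rcases Nat.even_or_odd j with he | ho
    · have hno : ¬ Even (j + 1) := by rw [Nat.even_add_one]; exact not_not.2 he
      refine ⟨fun h => absurd h hno, fun _ => ?_⟩
      have h5 := ih.1 he
      have h6 : (-a) ^ (j + 1) = - a ^ (j + 1) := by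
        rw [Odd.neg_pow (Nat.not_even_iff_odd.1 hno)]
      rw [h6, neg_div]
      constructor <;> linarith [h5.1, h5.2]
    · have hne : ¬ Even j := Nat.not_even_iff_odd.2 ho
      have hev : Even (j + 1) := by rw [Nat.even_add_one]; exact hne
      refine ⟨fun _ => ?_, fun h => absurd hev h⟩
      have h5 := ih.2 hne
      have h6 : (-a) ^ (j + 1) = a ^ (j + 1) := Even.neg_pow hev a
      rw [h6]
      constructor <;> linarith [h5.1, h5.2]

lemma bs_bd {κ : ℝ} (h0 : -1 ≤ κ) (h1 : κ ≤ 0) (j : ℕ) : 0 ≤ bs κ j ∧ bs κ j ≤ 1 := by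
  have h := bs_inv (a := -κ) (by linarith) (by linarith) j
  rw [neg_neg] at h
  have hnn : 0 ≤ (-κ) ^ j / (j.factorial : ℝ) := by
    have : 0 ≤ -κ := by linarith
    positivity
  by_cases he : Even j
  · have := h.1 he
    exact ⟨hnn.trans this.1, this.2⟩
  · have := h.2 he
    exact ⟨this.1, by linarith [this.2]⟩

/-- the extended truncated exponential as an arithmetic function -/
noncomputable def chF (κ : ℝ) (N : ℕ) : ArithmeticFunction ℝ :=
  ⟨fun n => if n = 0 then 0 else mf (ch κ N) n, by simp⟩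

lemma chF_apply (κ : ℝ) (N : ℕ) {n : ℕ} (hn : n ≠ 0) : chF κ N n = mf (ch κ N) n := if_neg hn

lemma chF_mult (κ : ℝ) (N : ℕ) : (chF κ N).IsMultiplicative := by
  rw [ArithmeticFunction.IsMultiplicative.iff_ne_zero]
  refine ⟨by rw [chF_apply κ N one_ne_zero, mf_one], ?_⟩
  intro m n hm hn hc
  rw [chF_apply κ N (mul_ne_zero hm hn), chF_apply κ N hm, chF_apply κ N hn, mf_mul _ hc]

lemma mf_ch {κ : ℝ} {N n : ℕ} (hn : n ≠ 0) :
    (n ∈ Nat.smoothNumbers N → mf (ch κ N) n = mf (ek κ) n) ∧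
    (n ∉ Nat.smoothNumbers N → mf (ch κ N) n = 0) := by
  constructor
  · intro h
    refine mf_congr fun p hp => ?_
    have hp' := Nat.mem_primeFactors.1 hp
    have hj : n.factorization p ≠ 0 := by
      rw [← Finsupp.mem_support_iff, Nat.support_factorization]
      exact hp
    unfold ch
    rw [if_neg hj, if_pos ((sm_iff.1 h).2 p hp'.1 hp'.2.1)]
  · intro h
    rw [sm_iff] at h
    push Not at h
    obtain ⟨p, hp, hpn, hpN⟩ := h hn
    unfold mf
    have hmem : p ∈ n.primeFactors := Nat.mem_primeFactors.2 ⟨hp, hpn, hn⟩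
    refine prod_eq_zero hmem ?_
    have hj : n.factorization p ≠ 0 := by
      rw [← Finsupp.mem_support_iff, Nat.support_factorization]
      exact hmem
    unfold ch
    rw [if_neg hj, if_neg (by omega)]

lemma sum_ch (κ : ℝ) (N p j : ℕ) : ∑ i ∈ range (j + 1), ch κ N p i = cv κ N p j := by
  unfold cv bs
  by_cases h : p < N
  · rw [if_pos h]
    refine sum_congr rfl fun i _ => ?_
    unfold ch ek
    by_cases hi : i = 0
    · rw [if_pos hi, hi]; simp
    · rw [if_neg hi, if_pos h]
  · rw [if_neg h, sum_eq_single 0]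
    · simp [ch]
    · intro i _ hi
      unfold ch
      rw [if_neg hi, if_neg h]
    · intro h0
      exact absurd (mem_range.2 (Nat.succ_pos j)) h0

lemma conv_eq {κ : ℝ} {N d n : ℕ} (hn : n ≠ 0) (ho : Ob 0 N n ≤ d) :
    (aI κ N d * ((ArithmeticFunction.zeta : ArithmeticFunction ℕ) : ArithmeticFunction ℝ)) n =
      mf (cv κ N) n := by
  classical
  rw [ArithmeticFunction.coe_mul_zeta_apply]
  have h1 : ∑ e ∈ n.divisors, aI κ N d e = ∑ e ∈ n.divisors, chF κ N e := by
    refine sum_congr rfl fun e he => ?_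
    have hd := Nat.dvd_of_mem_divisors he
    have he0 : e ≠ 0 := fun h => hn (by subst h; exact Nat.eq_zero_of_zero_dvd hd)
    have hoe : Ob 0 N e ≤ d := (Ob_le_of_dvd 0 N hd hn).trans ho
    rw [chF_apply κ N he0, aI_apply]
    by_cases hs : e ∈ Nat.smoothNumbers N
    · rw [if_pos ⟨hs, hoe⟩, (mf_ch he0).1 hs]
    · rw [if_neg (fun h => hs h.1), (mf_ch he0).2 hs]
  rw [h1, ← ArithmeticFunction.coe_mul_zeta_apply]
  have hm : (chF κ N * ((ArithmeticFunction.zeta : ArithmeticFunction ℕ) :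
      ArithmeticFunction ℝ)).IsMultiplicative :=
    (chF_mult κ N).mul (ArithmeticFunction.isMultiplicative_zeta.natCast)
  rw [hm.multiplicative_factorization _ hn]
  unfold mf
  rw [Finsupp.prod, Nat.support_factorization]
  refine prod_congr rfl fun p hp => ?_
  have hp' := (Nat.mem_primeFactors.1 hp).1
  rw [ArithmeticFunction.coe_mul_zeta_apply, Nat.sum_divisors_prime_pow hp', ← sum_ch]
  refine sum_congr rfl fun i _ => ?_
  rw [chF_apply κ N (pow_ne_zero _ hp'.ne_zero), mf_prime_pow hp' (by simp [ch])]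

end Pool.Agent.Q280.CD
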