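import Pool.Agent.Q280.CD.Asy
import Pool.Agent.Q280.CD.Conv

set_option autoImplicit false

/-! Job M7. -/

namespace Pool.Agent.Q280.CD

open MeasureTheory Filter Pool.Agent.Q276.CD

section

variable {κ : ℝ} {N d : ℕ}

/-- the convolution -/
noncomputable def cc (κ : ℝ) (N d n : ℕ) : ℝ :=
  (aI κ N d * ((ArithmeticFunction.zeta : ArithmeticFunction ℕ) : ArithmeticFunction ℝ)) n

lemma cc_abs (hκ : |κ| ≤ 1) {n : ℕ} (hn : n ≠ 0) : |cc κ N d n| ≤ tau n := by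
  unfold cc
  rw [ArithmeticFunction.coe_mul_zeta_apply, tau_eq hn]
  refine (Finset.abs_sum_le_sum_abs _ _).trans ?_
  refine (Finset.sum_le_sum fun e _ => aI_abs hκ e).trans ?_
  simp

lemma cc_sq_le_tau (hκ : |κ| ≤ 1) {n : ℕ} (hn : n ≠ 0) : cc κ N d n ^ 2 ≤ tau n ^ 2 := by
  rw [← sq_abs]
  exact pow_le_pow_left₀ (abs_nonneg _) (cc_abs hκ hn) 2

lemma cv_nonneg (h0 : -1 ≤ κ) (h1 : κ ≤ 0) (p j : ℕ) : 0 ≤ cv κ N p j := by
  unfold cv
  split_ifs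
  · exact (bs_bd h0 h1 j).1
  · exact zero_le_one

lemma cc_nonneg (h0 : -1 ≤ κ) (h1 : κ ≤ 0) {n : ℕ} (hn : n ≠ 0) (ho : Ob 0 N n ≤ d) :
    0 ≤ cc κ N d n := by
  unfold cc
  rw [conv_eq hn ho]
  exact mf_nonneg (cv_nonneg h0 h1) n

/-- the Rankin factor is at least one -/
lemma rankin {n : ℕ} (ho : d < Ob 0 N n) {x : ℝ} (hx : 0 ≤ x) :
    x ≤ (rr ^ d)⁻¹ * (x * rr ^ Ob 0 N n) := by
  have h1 : rr ^ d ≤ rr ^ Ob 0 N n := pow_le_pow_right₀ one_le_rr ho.le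
  have h2 : 0 < rr ^ d := pow_pos rr_pos _
  rw [← div_eq_inv_mul, le_div_iff₀ h2]
  exact mul_le_mul_of_nonneg_left h1 hx

lemma cc_sq (h0 : -1 ≤ κ) (h1 : κ ≤ 0) {n : ℕ} (hn : n ∈ Nat.smoothNumbers N) :
    cc κ N d n ^ 2 ≤ mf (fun _ j => bs κ j ^ 2) n + (rr ^ d)⁻¹ * mf (tm 2) n := by
  have hn0 := (sm_iff.1 hn).1
  have hκ : |κ| ≤ 1 := by rw [abs_le]; constructor <;> linarith
  have hb : 0 ≤ mf (fun _ j => bs κ j ^ 2) n := mf_nonneg (fun _ _ => sq_nonneg _) n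
  have ht : 0 ≤ (rr ^ d)⁻¹ * mf (tm 2) n :=
    mul_nonneg (inv_nonneg.2 (pow_nonneg rr_pos.le _)) (mf_nonneg (tm_nonneg 2) n)
  by_cases ho : Ob 0 N n ≤ d
  · have e1 : cc κ N d n ^ 2 = mf (fun _ j => bs κ j ^ 2) n := by
      unfold cc
      rw [conv_eq hn0 ho, ← mf_pow_fun]
      refine mf_congr fun p hp => ?_
      have hp' := Nat.mem_primeFactors.1 hp
      unfold cv
      rw [if_pos ((sm_iff.1 hn).2 p hp'.1 hp'.2.1)]
    rw [e1]
    linarith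
  · push Not at ho
    have h2 := rankin ho (sq_nonneg (tau n))
    have h3 := tau_pow_Ob 2 0 N n
    have h4 := mul_le_mul_of_nonneg_left h3 (inv_nonneg.2 (pow_nonneg rr_pos.le d))
    have h5 := cc_sq_le_tau (N := N) (d := d) hκ hn0
    linarith

lemma tau_log {n : ℕ} (hn : n ∈ Nat.smoothNumbers N) (hN : 1 ≤ N) :
    tau n ^ 2 * Real.log n ≤ Real.log N * tau n ^ 3 := by
  have h1 := log_le_Ob hn
  have h2 : (Ob 0 N n : ℝ) ≤ tau n := by
    have := Ob_le_tau (a := 0) (b := N) (n := n)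
    linarith
  have h3 : 0 ≤ Real.log N := Real.log_nonneg (by exact_mod_cast hN)
  have h4 : Real.log n ≤ tau n * Real.log N := h1.trans (mul_le_mul_of_nonneg_right h2 h3)
  calc tau n ^ 2 * Real.log n ≤ tau n ^ 2 * (tau n * Real.log N) :=
        mul_le_mul_of_nonneg_left h4 (sq_nonneg _)
    _ = _ := by ring

lemma tau_le_tm (m n : ℕ) : tau n ^ m ≤ mf (tm m) n := by
  have h := tau_pow_Ob m 0 0 n
  have : Ob 0 0 n = 0 := Ob_eq_zero fun p _ _ => by omega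
  rwa [this, pow_zero, mul_one] at h

lemma log_nn (n : ℕ) : 0 ≤ Real.log (n : ℝ) := Real.log_natCast_nonneg n

lemma Sb_cc (hκ : |κ| ≤ 1) (hN : 1 ≤ N) :
    Sb N (fun n => cc κ N d n ^ 2 * (1 + Real.log n)) := by
  have h1 := (tm_bound 3 N).1.const_mul (1 + Real.log N)
  refine Sb_of_le h1 fun n hn => ?_
  have hn0 := (sm_iff.1 hn).1
  have hl := log_nn n
  rw [abs_of_nonneg (mul_nonneg (sq_nonneg _) (by linarith))]
  have h2 := cc_sq_le_tau (N := N) (d := d) hκ hn0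
  have h3 := tau_log hn hN
  have h4 : tau n ^ 2 ≤ tau n ^ 3 := pow_le_pow_right₀ (one_le_tau hn0) (by norm_num)
  have h5 := tau_le_tm 3 n
  have h6 : 0 ≤ Real.log N := log_nn N
  calc cc κ N d n ^ 2 * (1 + Real.log n) ≤ tau n ^ 2 * (1 + Real.log n) :=
        mul_le_mul_of_nonneg_right h2 (by linarith)
    _ = tau n ^ 2 + tau n ^ 2 * Real.log n := by ring
    _ ≤ tau n ^ 3 + Real.log N * tau n ^ 3 := add_le_add h4 h3
    _ = (1 + Real.log N) * tau n ^ 3 := by ring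
    _ ≤ _ := mul_le_mul_of_nonneg_left h5 (by linarith)

lemma Sb_cc_sq (hκ : |κ| ≤ 1) : Sb N (fun n => cc κ N d n ^ 2) := by
  refine Sb_of_le (tm_bound 2 N).1 fun n hn => ?_
  rw [abs_of_nonneg (sq_nonneg _)]
  exact (cc_sq_le_tau hκ (sm_iff.1 hn).1).trans (tau_le_tm 2 n)

/-- the sum of the reciprocals of the squares -/
noncomputable def S2 : ℝ := ∑' n : ℕ, 1 / (n : ℝ) ^ 2

lemma S2_sum : Summable fun n : ℕ => 1 / (n : ℝ) ^ 2 := Real.summable_one_div_nat_pow.2 (by norm_num)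

lemma S2_nonneg : 0 ≤ S2 := tsum_nonneg fun n => by positivity

/-- the local factors of the main term -/
lemma loc_bs (h0 : -1 ≤ κ) (h1 : κ ≤ 0) {p : ℕ} (hp : 2 ≤ p) :
    (Summable fun j : ℕ => bs κ j ^ 2 / (p : ℝ) ^ j) ∧
      ∑' j : ℕ, bs κ j ^ 2 / (p : ℝ) ^ j ≤ Real.exp ((1 + κ) ^ 2 * (1 / p) + 2 * (1 / (p:ℝ) ^ 2)) := by
  have hp2 : (2:ℝ) ≤ p := by exact_mod_cast hp
  have hp0 : (0:ℝ) < p := by linarith
  have hr0 : 0 ≤ (1 / (p:ℝ)) := by positivity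
  have hr1 : (1 / (p:ℝ)) < 1 := by rw [div_lt_one hp0]; linarith
  have hg := summable_geometric_of_lt_one hr0 hr1
  have hle : ∀ j : ℕ, bs κ j ^ 2 / (p : ℝ) ^ j ≤ (1 / (p:ℝ)) ^ j := by
    intro j
    have hb := bs_bd h0 h1 j
    have hb2 : bs κ j ^ 2 ≤ 1 := pow_le_one₀ hb.1 hb.2
    rw [one_div, inv_pow, ← one_div]
    exact div_le_div_of_nonneg_right hb2 (by positivity)
  have hnn : ∀ j : ℕ, 0 ≤ bs κ j ^ 2 / (p : ℝ) ^ j := fun j => by positivity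
  have hs := Summable.of_nonneg_of_le hnn hle hg
  refine ⟨hs, ?_⟩
  have e1 : ∑' j : ℕ, bs κ j ^ 2 / (p : ℝ) ^ j =
      1 + (1 + κ) ^ 2 * (1 / p) + ∑' j : ℕ, bs κ (j + 2) ^ 2 / (p : ℝ) ^ (j + 2) := by
    rw [← hs.sum_add_tsum_nat_add 2, Finset.sum_range_succ, Finset.sum_range_succ,
      Finset.sum_range_zero, bs_zero, bs_one]
    ring
  have e2 : ∑' j : ℕ, bs κ (j + 2) ^ 2 / (p : ℝ) ^ (j + 2) ≤ 2 * (1 / (p:ℝ) ^ 2) := by
    have h3 : ∑' j : ℕ, bs κ (j + 2) ^ 2 / (p : ℝ) ^ (j + 2) ≤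
        ∑' j : ℕ, (1 / (p:ℝ)) ^ (j + 2) :=
      ((summable_nat_add_iff 2).2 hs).tsum_le_tsum (fun j => hle (j + 2))
        ((summable_nat_add_iff 2).2 hg)
    refine h3.trans ?_
    have h4 : ∀ j : ℕ, (1 / (p:ℝ)) ^ (j + 2) = (1 / (p:ℝ)) ^ j * (1 / (p:ℝ) ^ 2) := by
      intro j
      rw [pow_add]
      congr 1
      rw [one_div, inv_pow, ← one_div]
    simp only [h4]
    rw [tsum_mul_right, tsum_geometric_of_lt_one hr0 hr1]
    apply mul_le_mul_of_nonneg_right _ (by positivity)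
    rw [inv_le_comm₀ (by linarith) (by norm_num)]
    have : 1 / (p:ℝ) ≤ 1 / 2 := one_div_le_one_div_of_le (by norm_num) hp2
    linarith
  rw [e1]
  have := Real.add_one_le_exp ((1 + κ) ^ 2 * (1 / p) + 2 * (1 / (p:ℝ) ^ 2))
  linarith

lemma bs_bound (h0 : -1 ≤ κ) (h1 : κ ≤ 0) (N : ℕ) : Sb N (mf (fun _ j => bs κ j ^ 2)) ∧
    SS N (mf (fun _ j => bs κ j ^ 2)) ≤ Real.exp ((1 + κ) ^ 2 * R1 N + 2 * S2) := by
  have h2 := ep_bound (φ := fun _ j => bs κ j ^ 2) (N := N)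
    (c := fun p => (1 + κ) ^ 2 * (1 / (p:ℝ)) + 2 * (1 / (p:ℝ) ^ 2))
    (fun p => by simp [bs_zero]) (fun p j => sq_nonneg _)
    (fun p hp => (loc_bs h0 h1 hp.two_le).1) (fun p hp _ => (loc_bs h0 h1 hp.two_le).2)
  refine ⟨h2.1, h2.2.trans ?_⟩
  rw [Real.exp_le_exp, Finset.sum_add_distrib, ← Finset.mul_sum, ← Finset.mul_sum]
  have h3 : ∑ p ∈ Nat.primesBelow N, 1 / (p:ℝ) ^ 2 ≤ S2 :=
    S2_sum.sum_le_tsum _ fun n _ => by positivity
  have h4 : ∑ p ∈ Nat.primesBelow N, 1 / (p:ℝ) = R1 N := rfl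
  rw [h4]
  linarith

lemma SS_cc (h0 : -1 ≤ κ) (h1 : κ ≤ 0) : SS N (fun n => cc κ N d n ^ 2) ≤
    Real.exp ((1 + κ) ^ 2 * R1 N + 2 * S2) + (rr ^ d)⁻¹ * Real.exp (Km 2 * R1 N) := by
  have hκ : |κ| ≤ 1 := by rw [abs_le]; constructor <;> linarith
  have hb := bs_bound h0 h1 N
  have ht := tm_bound 2 N
  refine (SS_le (Sb_cc_sq hκ) (hb.1.add (ht.1.const_mul _)) fun n hn => cc_sq h0 h1 hn).trans ?_
  rw [SS_add hb.1 (ht.1.const_mul _), SS_const_mul]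
  exact add_le_add hb.2 (mul_le_mul_of_nonneg_left ht.2 (inv_nonneg.2 (pow_nonneg rr_pos.le _)))

lemma SS_bad (hκ : |κ| ≤ 1) (hN : 1 ≤ N) :
    SS N (fun n => (({n : ℕ | n ≠ 0 ∧ Ob 0 N n ≤ d} : Set ℕ)ᶜ).indicator
      (fun n => cc κ N d n ^ 2 * Real.log n) n) ≤
    Real.log N * ((rr ^ d)⁻¹ * Real.exp (Km 3 * R1 N)) := by
  have ht := tm_bound 3 N
  have hlN : 0 ≤ Real.log N := log_nn N
  have hri : 0 ≤ (rr ^ d)⁻¹ := inv_nonneg.2 (pow_nonneg rr_pos.le _)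
  have key : ∀ n ∈ Nat.smoothNumbers N, (({n : ℕ | n ≠ 0 ∧ Ob 0 N n ≤ d} : Set ℕ)ᶜ).indicator
      (fun n => cc κ N d n ^ 2 * Real.log n) n ≤ Real.log N * (rr ^ d)⁻¹ * mf (tm 3) n := by
    intro n hn
    have hn0 := (sm_iff.1 hn).1
    have hm : 0 ≤ mf (tm 3) n := mf_nonneg (tm_nonneg 3) n
    by_cases ho : Ob 0 N n ≤ d
    · rw [Set.indicator_of_notMem (by simp [hn0, ho])]
      positivity
    · rw [Set.indicator_of_mem (by simp [ho])]
      push Not at ho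
      have h2 := cc_sq_le_tau (N := N) (d := d) hκ hn0
      have h3 := tau_log hn hN
      have h4 := rankin ho (pow_nonneg (tau_nonneg n) 3)
      have h5 := mul_le_mul_of_nonneg_left (tau_pow_Ob 3 0 N n) hri
      calc cc κ N d n ^ 2 * Real.log n ≤ tau n ^ 2 * Real.log n :=
            mul_le_mul_of_nonneg_right h2 (log_nn n)
        _ ≤ Real.log N * tau n ^ 3 := h3
        _ ≤ Real.log N * ((rr ^ d)⁻¹ * mf (tm 3) n) :=
            mul_le_mul_of_nonneg_left (h4.trans h5) hlN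
        _ = _ := by ring
  have hsb : Sb N (fun n => (({n : ℕ | n ≠ 0 ∧ Ob 0 N n ≤ d} : Set ℕ)ᶜ).indicator
      (fun n => cc κ N d n ^ 2 * Real.log n) n) := by
    refine Sb_of_le (ht.1.const_mul (Real.log N * (rr ^ d)⁻¹)) fun n hn => ?_
    rw [abs_of_nonneg]
    · exact key n hn
    · exact Set.indicator_nonneg (fun m _ => mul_nonneg (sq_nonneg _) (log_nn m)) n
  refine (SS_le hsb (ht.1.const_mul (Real.log N * (rr ^ d)⁻¹)) key).trans ?_
  rw [SS_const_mul]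
  calc Real.log N * (rr ^ d)⁻¹ * SS N (mf (tm 3)) ≤
        Real.log N * (rr ^ d)⁻¹ * Real.exp (Km 3 * R1 N) :=
        mul_le_mul_of_nonneg_left ht.2 (by positivity)
    _ = _ := by ring

lemma aI_supp (hN : 1 ≤ N) {n : ℕ} (h : aI κ N d n ≠ 0) :
    n ∈ Nat.smoothNumbers N ∧ n ≤ N ^ d := by
  classical
  rw [aI_apply] at h
  have h1 : n ∈ Nat.smoothNumbers N ∧ Ob 0 N n ≤ d := by
    by_contra hc
    exact h (if_neg hc)
  refine ⟨h1.1, ?_⟩
  have hn0 := (sm_iff.1 h1.1).1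
  have hl := log_le_Ob h1.1
  have hlN : 0 ≤ Real.log N := log_nn N
  have h2 : Real.log n ≤ Real.log ((N ^ d : ℕ) : ℝ) := by
    push_cast
    rw [Real.log_pow]
    refine hl.trans (mul_le_mul_of_nonneg_right ?_ hlN)
    exact_mod_cast h1.2
  have h3 : (n : ℝ) ≤ ((N ^ d : ℕ) : ℝ) := by
    rwa [Real.log_le_log_iff (by exact_mod_cast Nat.pos_of_ne_zero hn0)
      (by exact_mod_cast Nat.pow_pos hN)] at h2
  exact_mod_cast h3

lemma sum_aI_le (hκ : |κ| ≤ 1) (hN : 1 ≤ N) (Y : ℕ) :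
    ∑ n ∈ Finset.Icc 1 Y, |aI κ N d n| ≤ ((N ^ d : ℕ) : ℝ) := by
  classical
  have h1 : ∑ n ∈ Finset.Icc 1 Y, |aI κ N d n| ≤
      ∑ n ∈ Finset.Icc 1 Y, if n ≤ N ^ d then (1:ℝ) else 0 := by
    refine Finset.sum_le_sum fun n _ => ?_
    split_ifs with h
    · exact aI_abs hκ n
    · have : aI κ N d n = 0 := by
        by_contra hc
        exact h (aI_supp hN hc).2
      rw [this, abs_zero]
  refine h1.trans ?_
  rw [← Finset.sum_filter, Finset.sum_const, nsmul_eq_mul, mul_one]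
  have h2 : ((Finset.Icc 1 Y).filter fun n => n ≤ N ^ d).card ≤ (Finset.Icc 1 (N ^ d)).card := by
    apply Finset.card_le_card
    intro n hn
    rw [Finset.mem_filter, Finset.mem_Icc] at hn
    exact Finset.mem_Icc.2 ⟨hn.1.1, hn.2⟩
  rw [Nat.card_Icc, Nat.add_sub_cancel] at h2
  exact_mod_cast h2

end

theorem t_M7 (htw : P_TW) : P_M7 := by
  obtain ⟨η, hη, C, hC, htw⟩ := htw
  obtain ⟨C1, hC1, hR⟩ := ev_R1_y0
  refine ⟨5, by norm_num, ?_⟩
  -- the final constant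
  set K := C * Real.exp C1 * (Real.exp (C1 + 2 * S2) + 2) + 1 with hK
  filter_upwards [htw, hR, eventually_ge_atTop 4, tendsto_V.eventually_ge_atTop 1,
    tendsto_V.eventually_ge_atTop K, ev_y0_pow (η := 1 / 20) (by norm_num),
    ev_y0_pow (η := η / 2) (by positivity), ev_rr (Km 2) C1, ev_rr (Km 3) C1]
    with T htw hR hT hV hVK hp1 hp2 hr2 hr3 k hk0 hk1
  have hT0 : 0 < T := by linarith
  have hT1 : 1 ≤ T := by linarith
  have hL : 0 < Real.log T := Real.log_pos (by linarith)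
  have hV0 : 0 < V T := by linarith
  set N := y0 T with hN
  set d := d0 T with hd
  have hN1 : 1 ≤ N := y0_pos T
  have hd1 : 1 ≤ d := by
    rw [hd]
    unfold d0
    rw [Nat.one_le_ceil_iff]
    positivity
  have hNd : N ≤ N ^ d := Nat.le_self_pow (by omega) N
  have h0 : -1 ≤ k - 1 := by linarith
  have h1 : k - 1 ≤ 0 := by linarith
  have hκ : |k - 1| ≤ 1 := by rw [abs_le]; constructor <;> linarith
  have hNT : (N:ℝ) ≤ T := by
    have e1 : (N:ℝ) ≤ ((N ^ d : ℕ) : ℝ) := by exact_mod_cast hNd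
    have e2 : T ^ ((1:ℝ) / 20) ≤ T ^ (1:ℝ) := Real.rpow_le_rpow_of_exponent_le hT1 (by norm_num)
    rw [Real.rpow_one] at e2
    linarith
  have h := htw (aI (k - 1) N d) N (y2 T) {n : ℕ | n ≠ 0 ∧ Ob 0 N n ≤ d} hNT (y2_le hT0.le) (by
      intro n hn
      have := aI_supp hN1 hn
      refine ⟨?_, this.1⟩
      unfold y2
      apply Nat.le_floor
      have e1 : (n:ℝ) ≤ ((N ^ d : ℕ) : ℝ) := by exact_mod_cast this.2
      linarith) (by
      intro a n hdv hn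
      exact ⟨fun h => hn.1 (by subst h; exact Nat.eq_zero_of_zero_dvd hdv),
        (Ob_le_of_dvd 0 N hdv hn.1).trans hn.2⟩) (by
      intro n hn
      exact cc_nonneg h0 h1 hn.1 hn.2) (Sb_cc hκ hN1)
  refine h.trans ?_
  have hSS := SS_cc (N := N) (d := d) h0 h1
  have hbad := SS_bad (N := N) (d := d) hκ hN1
  have hR1 : 0 ≤ R1 N := R1_nonneg N
  set E := Real.exp (k ^ 2 * V T) with hE
  have hE1 : 1 ≤ E := Real.one_le_exp (by positivity)
  -- the small terms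
  have hKm : ∀ m, Real.exp (Km m * R1 N) ≤ Real.exp (Km m * (V T + C1)) := by
    intro m
    rw [Real.exp_le_exp]
    exact mul_le_mul_of_nonneg_left hR.1 (Km_nonneg m)
  have hri : 0 ≤ (rr ^ d)⁻¹ := inv_nonneg.2 (pow_nonneg rr_pos.le _)
  have hs2 : (rr ^ d)⁻¹ * Real.exp (Km 2 * R1 N) ≤ 1 :=
    (mul_le_mul_of_nonneg_left (hKm 2) hri).trans hr2
  have hs3 : (rr ^ d)⁻¹ * Real.exp (Km 3 * R1 N) ≤ 1 :=
    (mul_le_mul_of_nonneg_left (hKm 3) hri).trans hr3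
  have hmain : Real.exp ((1 + (k - 1)) ^ 2 * R1 N + 2 * S2) ≤ Real.exp (C1 + 2 * S2) * E := by
    rw [hE, ← Real.exp_add, Real.exp_le_exp]
    have e1 : (1 + (k - 1)) ^ 2 = k ^ 2 := by ring
    have e2 : k ^ 2 ≤ 1 := pow_le_one₀ hk0 hk1
    rw [e1]
    have e3 : k ^ 2 * R1 N ≤ k ^ 2 * (V T + C1) := mul_le_mul_of_nonneg_left hR.1 (sq_nonneg k)
    nlinarith
  have hSS2 : SS N (fun n => cc (k - 1) N d n ^ 2) ≤ (Real.exp (C1 + 2 * S2) + 1) * E := by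
    nlinarith
  have hlNT : Real.log N ≤ Real.log T :=
    Real.log_le_log (by exact_mod_cast hN1) hNT
  have hbad2 : SS N (fun n => (({n : ℕ | n ≠ 0 ∧ Ob 0 N n ≤ d} : Set ℕ)ᶜ).indicator
      (fun n => cc (k - 1) N d n ^ 2 * Real.log n) n) ≤ Real.log T * E := by
    refine hbad.trans ?_
    calc Real.log N * ((rr ^ d)⁻¹ * Real.exp (Km 3 * R1 N)) ≤ Real.log N * 1 :=
          mul_le_mul_of_nonneg_left hs3 (log_nn N)
      _ = Real.log N := mul_one _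
      _ ≤ Real.log T := hlNT
      _ ≤ _ := le_mul_of_one_le_right hL.le hE1
  have hrem : T ^ (1 - η) * (∑ n ∈ Finset.Icc 1 (y2 T), |aI (k - 1) N d n|) ^ 2 ≤ T := by
    have e1 := sum_aI_le (κ := k - 1) (d := d) hκ hN1 (y2 T)
    have e2 : (∑ n ∈ Finset.Icc 1 (y2 T), |aI (k - 1) N d n|) ^ 2 ≤ (T ^ (η / 2)) ^ 2 :=
      pow_le_pow_left₀ (Finset.sum_nonneg fun _ _ => abs_nonneg _) (e1.trans hp2) 2
    have e3 : (T ^ (η / 2)) ^ 2 = T ^ η := by
      rw [← Real.rpow_natCast, ← Real.rpow_mul hT0.le]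
      congr 1
      push_cast
      ring
    rw [e3] at e2
    calc T ^ (1 - η) * (∑ n ∈ Finset.Icc 1 (y2 T), |aI (k - 1) N d n|) ^ 2 ≤ T ^ (1 - η) * T ^ η :=
          mul_le_mul_of_nonneg_left e2 (Real.rpow_nonneg hT0.le _)
      _ = T := by
        rw [← Real.rpow_add hT0]
        simp
  have hX0 : 0 ≤ Real.log T * SS N (fun n => cc (k - 1) N d n ^ 2) +
      SS N (fun n => (({n : ℕ | n ≠ 0 ∧ Ob 0 N n ≤ d} : Set ℕ)ᶜ).indicator
      (fun n => cc (k - 1) N d n ^ 2 * Real.log n) n) := by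
    apply add_nonneg
    · exact mul_nonneg hL.le (SS_nonneg fun n _ => sq_nonneg _)
    · exact SS_nonneg fun n _ => Set.indicator_nonneg
        (fun m _ => mul_nonneg (sq_nonneg _) (log_nn m)) n
  have hX : Real.log T * SS N (fun n => cc (k - 1) N d n ^ 2) +
      SS N (fun n => (({n : ℕ | n ≠ 0 ∧ Ob 0 N n ≤ d} : Set ℕ)ᶜ).indicator
      (fun n => cc (k - 1) N d n ^ 2 * Real.log n) n) ≤
      Real.log T * ((Real.exp (C1 + 2 * S2) + 2) * E) := by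
    have := mul_le_mul_of_nonneg_left hSS2 hL.le
    nlinarith
  have hfirst : C * T * Real.exp (-R1 N) * (Real.log T * SS N (fun n => cc (k - 1) N d n ^ 2) +
      SS N (fun n => (({n : ℕ | n ≠ 0 ∧ Ob 0 N n ≤ d} : Set ℕ)ᶜ).indicator
      (fun n => cc (k - 1) N d n ^ 2 * Real.log n) n)) ≤
      C * T * (Real.exp C1 * (V T ^ 4 / Real.log T)) *
        (Real.log T * ((Real.exp (C1 + 2 * S2) + 2) * E)) := by
    apply mul_le_mul _ hX hX0 (by positivity)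
    exact mul_le_mul_of_nonneg_left hR.2 (by positivity)
  have hsecond : C * T * (Real.exp C1 * (V T ^ 4 / Real.log T)) *
        (Real.log T * ((Real.exp (C1 + 2 * S2) + 2) * E)) =
      (K - 1) * (T * V T ^ 4 * E) := by
    rw [hK]
    field_simp
    ring
  have hV5 : V T ^ (5:ℝ) = V T * V T ^ 4 := by
    have : (5:ℝ) = ((5:ℕ):ℝ) := by norm_num
    rw [this, Real.rpow_natCast]
    ring
  rw [hV5]
  have hTE : T ≤ T * V T ^ 4 * E := by
    have e1 : 1 ≤ V T ^ 4 := one_le_pow₀ hV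
    calc T = T * 1 * 1 := by ring
      _ ≤ _ := by gcongr
  have hfin : (K - 1) * (T * V T ^ 4 * E) + T ≤ T * (V T * V T ^ 4) * E := by
    have e1 : T * (V T * V T ^ 4) * E = V T * (T * V T ^ 4 * E) := by ring
    rw [e1]
    have e2 : 0 ≤ T * V T ^ 4 * E := by positivity
    nlinarith [mul_le_mul_of_nonneg_right hVK e2]
  exact (add_le_add (hfirst.trans hsecond.le) hrem).trans hfin

end Pool.Agent.Q280.CD
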